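import Pool.Agent.J4H81.GB.Stm

/-!
# Project GB, pieces (EV), (MZ)
-/

set_option autoImplicit false

namespace Pool.Agent.J4H98.GB

open Finset Pool.Agent.J4H81.GB Pool.Agent.J4H81.PT Pool.Agent.J4H32.MV

theorem t_EV : S_EV := by
  intro W Q n
  unfold GG hq
  simp only [dvd_neg]

/-- the model has the period `Q!` -/
lemma GG_period (W Q : ℕ) (n t : ℤ) : GG W Q (n + (Nat.factorial Q : ℤ) * t) = GG W Q n := by
  unfold GG
  refine sum_congr rfl fun q hq' => ?_
  rw [mem_QQ] at hq'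
  unfold hq
  refine prod_congr rfl fun p hp => ?_
  have hpq : p ∣ q := Nat.dvd_of_mem_primeFactors hp
  have hp0 : 0 < p := (Nat.prime_of_mem_primeFactors hp).pos
  have hle : p ≤ Q := (Nat.le_of_dvd (by omega) hpq).trans hq'.1.2
  have hd : (p : ℤ) ∣ (Nat.factorial Q : ℤ) * t := by
    refine Dvd.dvd.mul_right ?_ t
    exact_mod_cast Nat.dvd_factorial hp0 hle
  have e : ((p : ℤ) ∣ n + (Nat.factorial Q : ℤ) * t) ↔ (p : ℤ) ∣ n := (Int.dvd_add_left hd)
  simp only [e]

/-- natural shifts with the same values of the model -/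
lemma exists_shift {J : ℕ} (W Q : ℕ) (C : Fin J → ℤ) :
    ∃ C' : Fin J → ℕ, (∀ j (m : ℕ), GG W Q (C j + m) = GG W Q ((C' j + m : ℕ) : ℤ)) ∧
      ∀ i j, (C' i : ℤ) - C' j = C i - C j := by
  obtain ⟨A, hA⟩ : ∃ A : ℕ, ∀ j, (-(A : ℤ)) ≤ C j := by
    refine ⟨∑ j, (C j).natAbs, fun j => ?_⟩
    have h1 : (C j).natAbs ≤ ∑ j, (C j).natAbs := single_le_sum (f := fun j => (C j).natAbs) (fun i _ => Nat.zero_le _) (mem_univ j)
    have h2 : -((C j).natAbs : ℤ) ≤ C j := by
      rw [Int.natCast_natAbs]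
      exact neg_abs_le _
    have h3 : ((C j).natAbs : ℤ) ≤ ((∑ j, (C j).natAbs : ℕ) : ℤ) := by exact_mod_cast h1
    linarith
  have hf : (1 : ℤ) ≤ (Nat.factorial Q : ℤ) := by exact_mod_cast Nat.factorial_pos Q
  have hnn : ∀ j, 0 ≤ C j + (Nat.factorial Q : ℤ) * A := fun j => by
    have := hA j
    have hA0 : (0 : ℤ) ≤ A := Int.natCast_nonneg A
    nlinarith
  refine ⟨fun j => (C j + (Nat.factorial Q : ℤ) * A).toNat, fun j m => ?_, fun i j => ?_⟩
  · rw [← GG_period W Q (C j + m) A]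
    congr 1
    push_cast
    rw [Int.toNat_of_nonneg (hnn j)]
    ring
  · rw [Int.toNat_of_nonneg (hnn j), Int.toNat_of_nonneg (hnn i)]
    ring

theorem t_MZ : S_MZ := by
  refine ⟨fun hMD => ?_, fun hMB => ?_⟩
  · intro W Q J T w C V hQ hw hW hVT hV hC
    obtain ⟨C', h1, h2⟩ := exists_shift W Q C
    have hinj : Function.Injective C' := by
      intro i j hij
      apply hC
      have := h2 i j
      rw [hij, sub_self] at this
      linarith
    have h := hMD W Q J T w C' V hQ hw hW hVT hV hinj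
    have e1 : ∀ s, ∏ j, GG W Q ((C' j + W * s : ℕ) : ℤ) = ∏ j, GG W Q (C j + W * s) := fun s =>
      prod_congr rfl fun j _ => by
        have := h1 j (W * s)
        rw [← this]
        push_cast
        rfl
    simpa only [e1, h2] using h
  · intro K W Q T C S hQ hT
    obtain ⟨C', h1, -⟩ := exists_shift W Q C
    have h := hMB K W Q T C' S hQ hT
    have e1 : ∀ s, ∏ j ∈ S, GG W Q ((C' j + W * s : ℕ) : ℤ) ^ 2 = ∏ j ∈ S, GG W Q (C j + W * s) ^ 2 := fun s =>
      prod_congr rfl fun j _ => by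
        have := h1 j (W * s)
        rw [← this]
        push_cast
        rfl
    simpa only [e1] using h

end Pool.Agent.J4H98.GB
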